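import Pool.Agent.H364B.Core

/-!
If every countably perfectly meager and universally null subset of `2^ℕ` is countably perfectly
null, then `min(non(M), non(N)) ≤ non(E)`, and if `non(M) < non(N)` then `cov(N) < non(M)`.
-/

set_option autoImplicit false

open Set Filter Topology Cardinal MeasureTheory

namespace Pool.Agent.Results.MP_2087e7_lc.InvariantsOfModelUN

open Pool.Agent.H364B

/-- `A` is universally null: `A` has outer `μ`-measure `0` for every finite non-atomic Borel
measure `μ`. -/
def UniversallyNull (A : Set CS) : Prop :=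
  ∀ μ : Measure CS, FiniteNonAtomic μ → μ A = 0

/-- the least size of a subset of `2^ℕ` which is not universally null -/
noncomputable def nonUN : Cardinal.{0} := sInf {c | ∃ S : Set CS, ¬ UniversallyNull S ∧ #S = c}

theorem universallyNull_of_small {A : Set CS} (hA : #A < nonUN) : UniversallyNull A := by
  by_contra hcon
  have h : nonUN ≤ #A := csInf_le' ⟨A, hcon, rfl⟩
  exact absurd h (not_le.2 hA)

/-- If every countably perfectly meager and universally null subset of `2^ℕ` is countably
perfectly null, then `min(non(M), non(UN)) ≤ non(E)`; and if moreover `non(M) < non(UN)`, then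
`cov(N) < non(M)` and, for every `φ`, almost every point is caught by one of fewer than `non(M)`
sequences. -/
theorem result (h : ∀ A : Set CS, CountablyPerfectlyMeager A → UniversallyNull A →
      CountablyPerfectlyNull A)
    (ν : Measure CS) (hν : FiniteNonAtomic ν) (h0 : ν Set.univ ≠ 0) :
    min nonM nonUN ≤ nonE ν ∧ (nonM < nonUN → covN ν < nonM ∧
      ∀ φ : ℕ → ℕ, ∃ T : Set (ℕ → CS), #T < nonM ∧ ∀ᵐ x ∂ν, ∃ s ∈ T, Caught φ s x) := by
  rw [nonM_eq]
  refine ⟨?_, fun hlt => ⟨?_, fun φ => ?_⟩⟩
  · by_contra hcon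
    rw [not_le, lt_min_iff] at hcon
    obtain ⟨A, hc, hA, hA'⟩ := of_nonE h0 hcon.1
    obtain ⟨F, hF, hAF, hF0⟩ := h A hA (universallyNull_of_small (hc.trans_lt hcon.2)) ν hν
    exact hA' F hF hAF hF0
  · by_contra hcon
    obtain ⟨A, hc, hA, hA'⟩ := of_covN hν (not_lt.1 hcon)
    obtain ⟨F, hF, hAF, hF0⟩ := h A hA (universallyNull_of_small (hc.trans_lt hlt)) ν hν
    exact hA' F hF hAF hF0
  · by_contra hcon
    push Not at hcon
    obtain ⟨A, hc, hA, hA'⟩ := of_small hν (φ := φ) fun T hT h1 => by
      refine hcon T hT ?_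
      rw [ae_iff]
      refine measure_mono_null ?_ h1
      intro x hx
      exact not_not.1 hx
    obtain ⟨F, hF, hAF, hF0⟩ := h A hA (universallyNull_of_small (hc.trans_lt hlt)) ν hν
    exact hA' F hF hAF hF0

end Pool.Agent.Results.MP_2087e7_lc.InvariantsOfModelUN
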