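import Mathlib
import Pool.Agent.Y40.MA.Main
import Pool.Agent.Helper9CH.Two

/-!
# `PN_σ = PM_σ ∩ UN` is not a theorem of ZFC, nor of ZFC + ¬CH

The continuum hypothesis can be forced over every ground model, and so can Martin's axiom together
with `𝔠 = ℵ₂`. In both cases every uncountable Borel set in every Polish space contains a
countably perfectly meager, universally null set that is not countably perfectly null.

The two forcing languages used here are the ones of `Pool.Agent.Helper292.ForceCH` and of
`Pool.Agent.Helper669.Forcing` (they only differ in notation): a sentence is represented by the set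
of the conditions which force it, with the usual clauses for the connectives.
-/

set_option autoImplicit false

open Set Filter Topology MeasureTheory Cardinal

namespace Pool.Agent.Results.MP_2087e7_lc.NotATheorem

open Pool.Agent.H341Q.PN

/-- The countable chain condition: every set of pairwise incompatible conditions is countable
(a smaller condition is stronger). -/
def IsCCC (P : Type) [Preorder P] : Prop :=
  ∀ A : Set P, (∀ p ∈ A, ∀ q ∈ A, p ≠ q → ¬ ∃ r : P, r ≤ p ∧ r ≤ q) → A.Countable

/-- Martin's axiom: for every nonempty preordered set with the countable chain condition and every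
family of fewer than continuum many dense subsets there is a filter which meets each of them. -/
def MA : Prop :=
  ∀ (P : Type) [Preorder P] [Nonempty P], IsCCC P →
    ∀ 𝒟 : Set (Set P), #𝒟 < 𝔠 → (∀ D ∈ 𝒟, ∀ p : P, ∃ q ∈ D, q ≤ p) →
      ∃ G : Set P, G.Nonempty ∧ (∀ p ∈ G, ∀ q : P, p ≤ q → q ∈ G) ∧
        (∀ p ∈ G, ∀ q ∈ G, ∃ r ∈ G, r ≤ p ∧ r ≤ q) ∧ ∀ D ∈ 𝒟, (G ∩ D).Nonempty

/-- The equality of the question: in every nonempty perfect Polish space (in `Type`) the countably
perfectly null sets are the countably perfectly meager universally null sets. -/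
def Equality : Prop :=
  ∀ (X : Type) [TopologicalSpace X] [PolishSpace X] [PerfectSpace X] [Nonempty X]
    [MeasurableSpace X] [BorelSpace X] (A : Set X),
    CountablyPerfectlyNull A ↔ CountablyPerfectlyMeager A ∧ UniversallyNull A

theorem martin_of_ma (h : MA) : Pool.Agent.Y40.MA.MartinAxiom := by
  intro P _ _ hP 𝒟 h𝒟 hD
  obtain ⟨G, h1, h2, h3, h4⟩ := h P (fun A hA => hP A hA) 𝒟 h𝒟 (fun D hDm => hD D hDm)
  exact ⟨G, ⟨h1, h2, h3⟩, h4⟩

theorem ma_of_martin (h : Pool.Agent.Y40.MA.MartinAxiom) : MA := by
  intro P _ _ hP 𝒟 h𝒟 hD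
  obtain ⟨G, ⟨h1, h2, h3⟩, h4⟩ := h P (fun A hA => hP A hA) 𝒟 h𝒟 (fun D hDm => hD D hDm)
  exact ⟨G, h1, h2, h3, h4⟩

/-- A nonempty perfect Polish space is uncountable. -/
theorem not_countable {X : Type} [TopologicalSpace X] [PolishSpace X] [PerfectSpace X]
    [Nonempty X] : ¬ (Set.univ : Set X).Countable := by
  intro h
  obtain ⟨φ, hφ⟩ := exists_copy (X := X)
  have h1 : (Set.univ : Set Cs).Countable := (h.preimage hφ.injective).mono (subset_univ _)
  have h2 := Cardinal.le_aleph0_iff_set_countable.2 h1
  rw [Cardinal.mk_univ] at h2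
  have h3 : #Cs = 𝔠 := by simp
  rw [h3] at h2
  exact absurd h2 (not_le.2 Cardinal.aleph0_lt_continuum)

instance polishSpace_cantor : PolishSpace (ℕ → Bool) := { }

instance perfectSpace_cantor : PerfectSpace (ℕ → Bool) := by
  constructor
  rw [preperfect_iff_nhds]
  intro x _ U hU
  obtain ⟨n, hn⟩ := exists_cyl hU
  refine ⟨Function.update x n (!(x n)), ⟨hn ?_, mem_univ _⟩, ?_⟩
  · intro i hi
    rw [Function.update_of_ne (by omega)]
  · intro h
    have := congrFun h n
    rw [Function.update_self] at this
    cases hx : x n <;> simp [hx] at this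

/-- **The equality `PN_σ = PM_σ ∩ UN` is not a theorem of ZFC.**

(1) Some forcing notion forces, below every condition, that `ω₁` is preserved and that the
continuum hypothesis holds. (2) Some forcing notion forces, below every condition, that `ω₁` is
preserved, that Martin's axiom for `ℵ₁` dense sets holds and that the continuum is at most `ℵ₂`;
(3) together the latter two sentences imply Martin's axiom and `𝔠 = ℵ₂`. (4) The continuum
hypothesis implies Martin's axiom. (5) Martin's axiom implies that in every Polish space every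
uncountable Borel set contains a countably perfectly meager universally null set which is not
countably perfectly null. (6) Hence it implies that the equality `PN_σ = PM_σ ∩ UN` fails in every
nonempty perfect Polish space. -/
theorem result :
    (∃ (P : Type) (_ : Preorder P), Nonempty P ∧ ∀ p : P,
      p ∈ Pool.Agent.Helper292.ForceCH.OmegaOnePreserved P ∧
      p ∈ Pool.Agent.Helper292.ForceCH.CHHolds P) ∧
    (∃ (P : Type) (_ : Preorder P), Nonempty P ∧ ∀ p : P,
      p ∈ Pool.Agent.W684.FM.OmegaOnePreserved P ∧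
      p ∈ Pool.Agent.W684.FM.MartinHolds P Pool.Agent.W684.FM.Om1 ∧
      p ∈ Pool.Agent.Helper669.Forcing.ContinuumLe P (ℵ_ 2 : Cardinal.{0}).out) ∧
    (Pool.Agent.W684.FM.MartinFor Pool.Agent.W684.FM.Om1 → (𝔠 : Cardinal.{0}) ≤ ℵ_ 2 →
      MA ∧ (𝔠 : Cardinal.{0}) = ℵ_ 2) ∧
    ((𝔠 : Cardinal.{0}) = ℵ₁ → MA) ∧
    (MA → ∀ (X : Type) [TopologicalSpace X] [PolishSpace X] [MeasurableSpace X] [BorelSpace X],
      ∀ B : Set X, MeasurableSet B → ¬ B.Countable →
        ∃ A : Set X, A ⊆ B ∧ CountablyPerfectlyMeager A ∧ UniversallyNull A ∧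
          ¬ CountablyPerfectlyNull A) ∧
    (MA → (∀ (X : Type) [TopologicalSpace X] [PolishSpace X] [PerfectSpace X] [Nonempty X]
      [MeasurableSpace X] [BorelSpace X], ∃ A : Set X,
        CountablyPerfectlyMeager A ∧ UniversallyNull A ∧ ¬ CountablyPerfectlyNull A) ∧
      ¬ Equality) := by
  have hgen : MA → ∀ (X : Type) [TopologicalSpace X] [PolishSpace X] [MeasurableSpace X]
      [BorelSpace X], ∀ B : Set X, MeasurableSet B → ¬ B.Countable →
        ∃ A : Set X, A ⊆ B ∧ CountablyPerfectlyMeager A ∧ UniversallyNull A ∧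
          ¬ CountablyPerfectlyNull A := by
    intro hMA X _ _ _ _ B hB hunc
    exact Pool.Agent.Y40.MA.exists_general_ma (martin_of_ma hMA) B hB hunc
  have hperf : MA → ∀ (X : Type) [TopologicalSpace X] [PolishSpace X] [PerfectSpace X]
      [Nonempty X] [MeasurableSpace X] [BorelSpace X], ∃ A : Set X,
        CountablyPerfectlyMeager A ∧ UniversallyNull A ∧ ¬ CountablyPerfectlyNull A := by
    intro hMA X _ _ _ _ _ _
    obtain ⟨A, _, h⟩ := hgen hMA X (Set.univ : Set X) MeasurableSet.univ not_countable
    exact ⟨A, h⟩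
  refine ⟨Pool.Agent.Helper9CH.exists_ch, Pool.Agent.W910.FC.exists_forcing, fun hM hc => ?_,
    fun h => ma_of_martin (Pool.Agent.Y40.MA.martin_of_ch h), hgen,
    fun hMA => ⟨hperf hMA, fun hE => ?_⟩⟩
  · obtain ⟨h1, h2⟩ := Pool.Agent.Helper9CH.martin_of_for hM hc
    exact ⟨ma_of_martin h1, h2⟩
  · obtain ⟨A, h1, h2, h3⟩ := hperf hMA (ℕ → Bool)
    exact h3 ((hE (ℕ → Bool) A).2 ⟨h1, h2⟩)

end Pool.Agent.Results.MP_2087e7_lc.NotATheorem
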